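import Pool.Agent.Y842.PG.Unif

/-!
# Exponential sums over correlations of arbitrary multiplicative functions on the minor arcs

For any number of shifts and ARBITRARY multiplicative functions `f 0, ..., f (r - 1)` with values in
the unit disc the sums of `∏ f t (n + h t) e(α n)` over `n ≤ y` are `o(N)` for most scales `N`
(in the sense of logarithmic averages), uniformly in the functions, in `y ≤ N` and in all real `α`
on the minor arcs of the scale `N`; the functions may depend on the largest scale, `α` and `y` on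
every scale `N`.
-/

set_option autoImplicit false

open Finset

namespace Pool.Agent.Results.MP_f3f922_nt.MinorArcs

/-- `e(x) = exp(2 π i x)` -/
noncomputable def e (x : ℝ) : ℂ := Complex.exp (2 * Real.pi * x * Complex.I)

/-- `f` is multiplicative on the positive integers, with values in the unit disc -/
def Mult (f : ℕ → ℂ) : Prop := (∀ n, 1 ≤ n → ‖f n‖ ≤ 1) ∧
  ∀ m n : ℕ, 1 ≤ m → 1 ≤ n → Nat.Coprime m n → f (m * n) = f m * f n

/-- `α` is on the minor arcs of the scale `N`: its distance from every fraction with a denominator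
at most `R` is at least `R / N` -/
def Minor (R N : ℕ) (α : ℝ) : Prop :=
  ∀ q : ℕ, 1 ≤ q → q ≤ R → ∀ b : ℤ, (R : ℝ) / N ≤ |α - b / q|

/-- **Main theorem.** Let `r ≥ 1`, let `h 0, ..., h (r - 1)` be natural numbers (distinct or not) and
`ε > 0`. There are `R` and `X₀` such that for all `X ≥ X₀` and ALL multiplicative functions
`f 0, ..., f (r - 1)` with values in the unit disc, for every set `E` of positive integers `N ≤ X` and
all real `α N` on the minor arcs of the scale `N` and all `y N ≤ N`: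
`∑_{N ∈ E} (1 / N) · (1 / N) |∑_{n ≤ y N} f 0 (n + h 0) ⋯ f (r - 1) (n + h (r - 1)) e(α N n)| ≤ ε log X`. -/
theorem result (r : ℕ) (hr : 1 ≤ r) (h : Fin r → ℕ) (ε : ℝ) (hε : 0 < ε) :
    ∃ R X₀ : ℕ, ∀ X : ℕ, X₀ ≤ X → ∀ f : Fin r → ℕ → ℂ, (∀ t, Mult (f t)) →
      ∀ E : Finset ℕ, (∀ N ∈ E, 1 ≤ N ∧ N ≤ X) → ∀ (α : ℕ → ℝ) (y : ℕ → ℕ), (∀ N, y N ≤ N) →
        (∀ N ∈ E, Minor R N (α N)) →
        ∑ N ∈ E, ‖∑ n ∈ Icc 1 (y N), (∏ t, f t (n + h t)) * e (α N * n)‖ / (N : ℝ) ^ 2 ≤
          ε * Real.log X := by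
  classical
  obtain ⟨R, X₀, key⟩ := Pool.Agent.Y842.PG.minor_all hr h ε hε
  refine ⟨R, X₀, fun X hX f hf E hE α y hy hα => ?_⟩
  set g : Fin r → ℕ → ℂ := fun t n => if n = 0 then 0 else f t n with hg
  have h1 : ∀ t n, ‖g t n‖ ≤ 1 := by
    intro t n
    simp only [hg]
    split_ifs with h0
    · simp
    · exact (hf t).1 n (Nat.one_le_iff_ne_zero.2 h0)
  have h2 : ∀ t, ∀ m n : ℕ, Nat.Coprime m n → g t (m * n) = g t m * g t n := by
    intro t m n hmn
    simp only [hg]
    by_cases hm : m = 0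
    · simp [hm]
    · by_cases hn : n = 0
      · simp [hn]
      · rw [if_neg hm, if_neg hn, if_neg (Nat.mul_ne_zero hm hn)]
        exact (hf t).2 m n (Nat.one_le_iff_ne_zero.2 hm) (Nat.one_le_iff_ne_zero.2 hn) hmn
  have h3 := key X hX g h1 h2 α y hy E (fun N hN => mem_Icc.2 (hE N hN)) (by
    intro N hN q hq1 hq2 A
    have h4 := hα N hN q hq1 hq2 A
    have hN0 : (0 : ℝ) < N := by exact_mod_cast (hE N hN).1
    rw [div_le_iff₀ hN0] at h4
    exact h4)
  refine le_trans (le_of_eq ?_) h3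
  refine sum_congr rfl fun N _ => ?_
  congr 2
  refine sum_congr rfl fun n hn => ?_
  have hn1 := (mem_Icc.1 hn).1
  have h5 : ∀ t, g t (n + h t) = f t (n + h t) := by
    intro t
    simp only [hg]
    rw [if_neg (by omega)]
  simp only [h5]
  rfl

end Pool.Agent.Results.MP_f3f922_nt.MinorArcs
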