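import Pool.Agent.X23.EL2

/-!
# Correlations of any number of functions of one type along an arithmetic progression

Elliott's conjecture, uniformly in the functions, natural averages: any number of multiplicative functions
`f 0, ..., f r`, which pretend to be `z χ_j(n) n ^ {i t_j}` on the primes with one and the same complex number
`z ≠ 1` of modulus one (and arbitrary `χ_j`, `t_j`), at the terms `n + b, n + b + h, ..., n + b + r h` of an arithmetic
progression (for instance consecutive integers), times any number of multiplicative functions which pretend to be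
`ψ_m(n) n ^ {i s_m}`, at arbitrary places. The average is at most `1 / √2 + ε` (at most `1 / 2 + ε` for real valued
functions) at all dyadic scales but few. The constant does not depend on the number of the factors.

Used from the starting files: the library `Pool.Agent.TH575.OM` on correlations of two functions, one of which is
arbitrary. The new step: in the product with lag `h` all the inner factors are of type `z * conj z = 1`, so that the
two-point theorem applies to it, although the number of the factors is arbitrary.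
-/

set_option autoImplicit false

namespace Pool.Agent.Results.MP_f3f922_nt.ProductsOfOneType

open Finset

/-- the twist `n ^ {i t}` -/
noncomputable def nit (t : ℝ) (n : ℕ) : ℂ := Complex.exp (((t * Real.log n : ℝ) : ℂ) * Complex.I)

/-- multiplicative functions with values in the unit disc -/
def Mult (f : ℕ → ℂ) : Prop :=
  (∀ n, ‖f n‖ ≤ 1) ∧ ∀ m n : ℕ, 1 ≤ m → 1 ≤ n → Nat.Coprime m n → f (m * n) = f m * f n

/-- `f(p)` is near `z χ(p) p ^ {i t}`: the sum of `|f(p) - z χ(p) p ^ {i t}| / p` over the primes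
`p₀ < p ≤ X` is at most `η` -/
def Near (p₀ q X : ℕ) (χ : DirichletCharacter ℂ q) (t : ℝ) (z : ℂ) (η : ℝ) (f : ℕ → ℂ) : Prop :=
  ∑ p ∈ (Ioc p₀ X).filter Nat.Prime, ‖f p - z * χ (p : ZMod q) * nit t p‖ / p ≤ η

/-- the mean over `1 ≤ n ≤ M` of `f_0(n + b) f_1(n + b + h) ⋯ f_r(n + b + r h) ∏_m G_m(n + c_m)` -/
noncomputable def Mean {r s : ℕ} (f : Fin (r + 1) → ℕ → ℂ) (G : Fin s → ℕ → ℂ) (b h : ℕ) (c : Fin s → ℕ) (M : ℕ) : ℂ :=
  (∑ n ∈ Icc 1 M, (∏ j : Fin (r + 1), f j (n + (b + j * h))) * ∏ m : Fin s, G m (n + c m)) / (M : ℂ)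

open scoped Classical in
/-- **Theorem.** Let `r`, `s`, `b`, `h ≥ 1`, `c_1, ..., c_s`, `p₀`, `q ≥ 1` and `ε > 0` be given. There are `η > 0` and
`C`, and for every `J` there are `δ > 0` and `x₀`, such that for all `x ≥ x₀`, all real `t_j`, `s_m` of absolute value
at most `δ x`, all characters `χ_j`, `ψ_m` modulo `q`, all `z` with `|z| = 1` and `|z - 1| ≥ ε`, and all multiplicative
functions `f_j`, `G_m` bounded by one which are near `z χ_j(n) n ^ {i t_j}` and near `ψ_m(n) n ^ {i s_m}`: the dyadic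
scales `x / 2 ^ i`, `1 ≤ i ≤ J`, at which the mean is larger than `1 / √2 + ε` satisfy `∑ 1 / i ≤ C`. If all the
functions are real valued, this holds with `1 / 2 + ε` in place of `1 / √2 + ε`. -/
theorem result (r s b h : ℕ) (hh : 1 ≤ h) (c : Fin s → ℕ) (p₀ q : ℕ) (hq : 1 ≤ q) (ε : ℝ) (hε : 0 < ε) :
    ∃ η : ℝ, 0 < η ∧ ∃ C : ℝ, ∀ J : ℕ, ∃ δ : ℝ, 0 < δ ∧ ∃ x₀ : ℕ, ∀ x : ℕ, x₀ ≤ x →
    ∀ (t : Fin (r + 1) → ℝ) (ts : Fin s → ℝ), (∀ j, |t j| ≤ δ * x) → (∀ m, |ts m| ≤ δ * x) →
    ∀ (χ : Fin (r + 1) → DirichletCharacter ℂ q) (ψ : Fin s → DirichletCharacter ℂ q) (z : ℂ), ‖z‖ = 1 →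
    ε ≤ ‖z - 1‖ → ∀ (f : Fin (r + 1) → ℕ → ℂ) (G : Fin s → ℕ → ℂ), (∀ j, Mult (f j)) → (∀ m, Mult (G m)) →
    (∀ j, Near p₀ q (2 * x) (χ j) (t j) z η (f j)) → (∀ m, Near p₀ q (2 * x) (ψ m) (ts m) 1 η (G m)) →
    ∑ i ∈ (Icc 1 J).filter (fun i => 1 / Real.sqrt 2 + ε < ‖Mean f G b h c (x / 2 ^ i)‖), 1 / (i : ℝ) ≤ C ∧
    ((∀ j n, (f j n).im = 0) → (∀ m n, (G m n).im = 0) →
      ∑ i ∈ (Icc 1 J).filter (fun i => 1 / 2 + ε < ‖Mean f G b h c (x / 2 ^ i)‖), 1 / (i : ℝ) ≤ C) :=
  Pool.Agent.X23.EL.oneType r s b h hh c p₀ q hq ε hε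

end Pool.Agent.Results.MP_f3f922_nt.ProductsOfOneType
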